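import Pool.Agent.R566.Secretary.Model

set_option autoImplicit false

open MeasureTheory
open scoped ENNReal BigOperators

namespace Pool.Agent.R566.Secretary

variable {n : ℕ}

/-- The value at time `s` is a record. -/
def recd (y : Fin n → ℝ) (s : Fin n) : Prop := ∀ r < s, y r < y s

/-- The target: the first value above `v`, or the maximum, if no value is above `v` and
the maximum comes late. -/
def tgt (v : ℝ) (k : ℕ) (y : Fin n → ℝ) (t : Fin n) : Prop :=
  (v < y t ∧ ∀ s < t, y s ≤ v) ∨ (k ≤ t.val ∧ (∀ s, y s ≤ v) ∧ ∀ s, s ≠ t → y s < y t)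

open Classical in
lemma rec_sum (s : Fin n) (y : Fin n → ℝ) :
    ((Finset.Iic s).filter fun r => recd (fun i => y (Equiv.swap r s i)) s).card ≤ 1 := by
  rw [Finset.card_le_one]
  have key : ∀ r r' : Fin n, r ≤ s → r' ≤ s → recd (fun i => y (Equiv.swap r s i)) s → r ≠ r' →
      y r' < y r := by
    intro r r' hr hr' h hne
    by_cases h1 : r' = s
    · subst h1
      have := h r (lt_of_le_of_ne hr hne)
      simpa using this
    · have := h r' (lt_of_le_of_ne hr' h1)
      simp only [Equiv.swap_apply_right] at this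
      rwa [Equiv.swap_apply_of_ne_of_ne hne.symm h1] at this
  intro a ha b hb
  rw [Finset.mem_filter, Finset.mem_Iic] at ha hb
  by_contra hne
  exact lt_asymm (key a b ha.1 hb.1 ha.2 hne) (key b a hb.1 ha.1 hb.2 (Ne.symm hne))

open Classical in
/-- The record at time `s` has conditional probability at most `1 / (s + 1)`. -/
lemma rec_avg (s : Fin n) (x : Fin n → ℝ) (F : Equiv.Perm (Fin n) → ℝ≥0∞)
    (hF : ∀ σ, ∀ r ≤ s, F (σ * Equiv.swap r s) = F σ) :
    ((s.val + 1 : ℕ) : ℝ≥0∞) * ∑ σ, (if recd (fun t => x (σ t)) s then F σ else 0) ≤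
      ∑ σ, F σ := by
  have h1 : ∀ r ∈ Finset.Iic s, ∑ σ : Equiv.Perm (Fin n),
      (if recd (fun t => x (σ t)) s then F σ else 0) =
      ∑ σ : Equiv.Perm (Fin n), (if recd (fun t => x (σ (Equiv.swap r s t))) s then F σ else 0) := by
    intro r hr
    rw [Finset.mem_Iic] at hr
    rw [← Equiv.sum_comp (Equiv.mulRight (Equiv.swap r s))]
    apply Finset.sum_congr rfl
    intro σ _
    simp only [Equiv.coe_mulRight, Equiv.Perm.coe_mul, Function.comp_apply]
    have hF' := hF σ r hr
    by_cases h : recd (fun t => x (σ (Equiv.swap r s t))) s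
    · exact ((if_pos h).trans hF').trans (if_pos h).symm
    · exact (if_neg h).trans (if_neg h).symm
  have h2 : ((s.val + 1 : ℕ) : ℝ≥0∞) *
      ∑ σ, (if recd (fun t => x (σ t)) s then F σ else 0) =
      ∑ r ∈ Finset.Iic s, ∑ σ : Equiv.Perm (Fin n),
        (if recd (fun t => x (σ (Equiv.swap r s t))) s then F σ else 0) := by
    rw [← Finset.sum_congr rfl h1, Finset.sum_const, Fin.card_Iic, nsmul_eq_mul]
  rw [h2, Finset.sum_comm]
  apply Finset.sum_le_sum
  intro σ _
  rw [← Finset.sum_filter, Finset.sum_const, nsmul_eq_mul]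
  have h3 := rec_sum s (fun t => x (σ t))
  calc (((Finset.Iic s).filter fun r => recd (fun t => x (σ (Equiv.swap r s t))) s).card : ℝ≥0∞) * F σ
      ≤ 1 * F σ := by
        apply mul_le_mul_left
        exact_mod_cast h3
    _ = F σ := one_mul _

lemma swap_lt {r s t q : Fin n} (hr : r ≤ s) (hs : s < t) (hq : q < t) :
    Equiv.swap r s q < t := by
  by_cases h1 : q = r
  · subst h1; rw [Equiv.swap_apply_left]; exact hs
  · by_cases h2 : q = s
    · subst h2; rw [Equiv.swap_apply_right]; exact lt_of_le_of_lt hr hs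
    · rw [Equiv.swap_apply_of_ne_of_ne h1 h2]; exact hq

lemma swap_fix {r s t : Fin n} (hr : r ≤ s) (hs : s < t) : Equiv.swap r s t = t :=
  Equiv.swap_apply_of_ne_of_ne (ne_of_gt (lt_of_le_of_lt hr hs)) (ne_of_gt hs)

lemma tgt_swap_imp {v : ℝ} {k : ℕ} {y : Fin n → ℝ} {r s t : Fin n} (hr : r ≤ s) (hs : s < t)
    (h : tgt v k y t) : tgt v k (fun i => y (Equiv.swap r s i)) t := by
  have ht := swap_fix hr hs
  rcases h with ⟨h1, h2⟩ | ⟨h1, h2, h3⟩
  · left
    refine ⟨by simp only [ht]; exact h1, fun q hq => h2 _ (swap_lt hr hs hq)⟩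
  · right
    refine ⟨h1, fun q => h2 _, fun q hq => ?_⟩
    simp only [ht]
    apply h3
    intro h4
    apply hq
    rw [← ht] at h4
    exact (Equiv.swap r s).injective h4

lemma tgt_swap {v : ℝ} {k : ℕ} {y : Fin n → ℝ} {r s t : Fin n} (hr : r ≤ s) (hs : s < t) :
    tgt v k (fun i => y (Equiv.swap r s i)) t ↔ tgt v k y t := by
  constructor
  · intro h
    have := tgt_swap_imp hr hs h
    simpa using this
  · exact tgt_swap_imp hr hs

/-! ### Uniformly random order -/

/-- The number of orders in which the value `i` comes at time `t`. -/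
lemma card_at (i t : Fin n) :
    (Finset.univ.filter fun σ : Equiv.Perm (Fin n) => σ t = i).card = (n - 1).factorial := by
  classical
  have hn : 0 < n := i.pos
  have h1 : ∀ j, (Finset.univ.filter fun σ : Equiv.Perm (Fin n) => σ t = j).card =
      (Finset.univ.filter fun σ : Equiv.Perm (Fin n) => σ t = i).card := by
    intro j
    apply Finset.card_bij (fun σ _ => Equiv.swap i j * σ)
    · intro σ hσ
      simp only [Finset.mem_filter, Finset.mem_univ, true_and] at hσ ⊢
      rw [Equiv.Perm.mul_apply, hσ, Equiv.swap_apply_right]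
    · intro σ _ τ _ h
      exact mul_left_cancel h
    · intro σ hσ
      simp only [Finset.mem_filter, Finset.mem_univ, true_and] at hσ
      refine ⟨Equiv.swap i j * σ, ?_, ?_⟩
      · simp only [Finset.mem_filter, Finset.mem_univ, true_and]
        rw [Equiv.Perm.mul_apply, hσ, Equiv.swap_apply_left]
      · rw [← mul_assoc, Equiv.swap_mul_self, one_mul]
  have h2 : ∑ j : Fin n, (Finset.univ.filter fun σ : Equiv.Perm (Fin n) => σ t = j).card =
      n.factorial := by
    rw [← Finset.card_eq_sum_card_fiberwise (f := fun σ : Equiv.Perm (Fin n) => σ t)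
      (s := Finset.univ) (t := Finset.univ) (fun _ _ => Finset.mem_univ _),
      Finset.card_univ, Fintype.card_perm, Fintype.card_fin]
  rw [Finset.sum_congr rfl fun j _ => h1 j, Finset.sum_const, Finset.card_univ, Fintype.card_fin,
    smul_eq_mul] at h2
  have h3 : n * (n - 1).factorial = n.factorial := Nat.mul_factorial_pred hn.ne'
  exact Nat.eq_of_mul_eq_mul_left hn (h2.trans h3.symm)

/-- The average of a function of the value at time `t`. -/
lemma sum_at (t : Fin n) (f : Fin n → ℝ≥0∞) :
    ∑ σ : Equiv.Perm (Fin n), f (σ t) = ((n - 1).factorial : ℝ≥0∞) * ∑ i, f i := by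
  classical
  rw [← Finset.sum_fiberwise (s := Finset.univ) (g := fun σ : Equiv.Perm (Fin n) => σ t),
    Finset.mul_sum]
  apply Finset.sum_congr rfl
  intro i _
  rw [Finset.sum_congr rfl (g := fun _ => f i) (by
    intro σ hσ
    rw [Finset.mem_filter] at hσ
    rw [hσ.2]), Finset.sum_const, card_at, nsmul_eq_mul]

end Pool.Agent.R566.Secretary
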