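import Pool.Agent.R566.Secretary.Integ

set_option autoImplicit false

open MeasureTheory ProbabilityTheory
open scoped ENNReal BigOperators

namespace Pool.Agent.R566.Secretary

variable {n : ℕ} (I : Instance n)

lemma exp_bound : Real.exp (-(199 / 200)) ≤ 36973 / 100000 := by
  have h1 : Real.exp (-(199 / 200)) = Real.exp (-1) * Real.exp (1 / 200) := by
    rw [← Real.exp_add]; congr 1; norm_num
  have h2 := Real.add_one_le_exp (-(1 / 200 : ℝ))
  have h3 : Real.exp (-(1 / 200)) * Real.exp (1 / 200) = 1 := by rw [← Real.exp_add]; simp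
  have h4 := Real.exp_neg_one_lt_d9
  have h5 := Real.exp_pos (1 / 200 : ℝ)
  have h6 := Real.exp_pos (-1 : ℝ)
  have h7 : Real.exp (1 / 200) ≤ 200 / 199 := by nlinarith
  rw [h1]
  nlinarith

lemma zz_lower {v : ℝ} (hn : 1 ≤ n)
    (hP : ∏ i, wi I v i = ENNReal.ofReal (Real.exp (-(199 / 200)))) :
    ENNReal.ofReal (n.factorial * ((1 - Real.exp (-(199 / 200))) / (199 / 200))) * ∑ i, zi I v i ≤
      ∫⁻ x, zz v x ∂I.joint := by
  classical
  set w : Fin n → ℝ := fun i => (wi I v i).toReal with hw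
  have hwt : ∀ i, wi I v i ≠ ∞ := fun i => measure_ne_top _ _
  have hof : ∀ i, ENNReal.ofReal (w i) = wi I v i := fun i => ENNReal.ofReal_toReal (hwt i)
  have hw0 : ∀ i, 0 ≤ w i := fun i => ENNReal.toReal_nonneg
  have hw1 : ∀ i, w i ≤ 1 := by
    intro i
    have : wi I v i ≤ 1 := prob_le_one
    exact ENNReal.toReal_le_of_le_ofReal zero_le_one (by simpa using this)
  have hprod : ∏ i, w i = Real.exp (-(199 / 200)) := by
    have h1 := congrArg ENNReal.toReal hP
    rw [ENNReal.toReal_prod, ENNReal.toReal_ofReal (Real.exp_pos _).le] at h1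
    exact h1
  have hwp : ∀ i, 0 < w i := by
    intro i
    rcases (hw0 i).lt_or_eq with h | h
    · exact h
    · exfalso
      have : ∏ i, w i = 0 := Finset.prod_eq_zero (Finset.mem_univ i) h.symm
      rw [this] at hprod
      exact absurd hprod (Real.exp_pos _).ne
  rw [lintegral_zz]
  have h2 : ∀ t : Fin n, ENNReal.ofReal ((n - 1).factorial *
      Real.exp (-((199 / 200) * t.val / (n - 1 : ℕ)))) * ∑ i, zi I v i ≤
      ∑ σ : Equiv.Perm (Fin n),
      zi I v (σ t) * ∏ s ∈ Finset.univ.filter (fun s => s < t), wi I v (σ s) := by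
    intro t
    rw [← Finset.sum_fiberwise (s := Finset.univ) (g := fun σ : Equiv.Perm (Fin n) => σ t),
      Finset.mul_sum]
    apply Finset.sum_le_sum
    intro i _
    have h3 := jensen hwp hw1 (le_of_eq hprod.symm) i t
    calc ENNReal.ofReal ((n - 1).factorial *
          Real.exp (-((199 / 200) * t.val / (n - 1 : ℕ)))) * zi I v i
        ≤ ENNReal.ofReal (∑ σ ∈ Finset.univ.filter (fun σ : Equiv.Perm (Fin n) => σ t = i),
        ∏ s ∈ Finset.univ.filter (fun s => s < t), w (σ s)) * zi I v i := by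
          apply mul_le_mul_left
          exact ENNReal.ofReal_le_ofReal h3
      _ = ∑ σ ∈ Finset.univ.filter (fun σ : Equiv.Perm (Fin n) => σ t = i),
          zi I v (σ t) * ∏ s ∈ Finset.univ.filter (fun s => s < t), wi I v (σ s) := by
          rw [ENNReal.ofReal_sum_of_nonneg (fun σ _ => Finset.prod_nonneg fun s _ => hw0 _),
            Finset.sum_mul]
          apply Finset.sum_congr rfl
          intro σ hσ
          rw [Finset.mem_filter] at hσ
          rw [hσ.2, mul_comm, ENNReal.ofReal_prod_of_nonneg (fun s _ => hw0 _)]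
          congr 1
          apply Finset.prod_congr rfl
          intro s _
          exact hof _
  refine le_trans ?_ (Finset.sum_le_sum fun t _ => h2 t)
  rw [← Finset.sum_mul]
  apply mul_le_mul_left
  rw [← ENNReal.ofReal_sum_of_nonneg (fun t _ => mul_nonneg (Nat.cast_nonneg _) (Real.exp_pos _).le),
    ← Finset.mul_sum]
  apply ENNReal.ofReal_le_ofReal
  have h4 := avg_exp (n := n) (l := 199 / 200) (by norm_num) hn
  have h5 : (n.factorial : ℝ) = (n - 1).factorial * n := by
    rw [← Nat.mul_factorial_pred (by omega : n ≠ 0)]; push_cast; ring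
  rw [h5, mul_assoc]
  exact mul_le_mul_of_nonneg_left h4 (Nat.cast_nonneg _)

/-- The sum of the probabilities to be above `v`. -/
lemma sum_above {v : ℝ} (hP : ∏ i, wi I v i = ENNReal.ofReal (Real.exp (-(199 / 200)))) :
    ∑ i, I.law i (Set.Ioi v) ≤ ENNReal.ofReal (199 / 200) := by
  classical
  set w : Fin n → ℝ := fun i => (wi I v i).toReal with hw
  have hwt : ∀ i, wi I v i ≠ ∞ := fun i => measure_ne_top _ _
  have hof : ∀ i, ENNReal.ofReal (w i) = wi I v i := fun i => ENNReal.ofReal_toReal (hwt i)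
  have hw0 : ∀ i, 0 ≤ w i := fun i => ENNReal.toReal_nonneg
  have hw1 : ∀ i, w i ≤ 1 := by
    intro i
    have : wi I v i ≤ 1 := prob_le_one
    exact ENNReal.toReal_le_of_le_ofReal zero_le_one (by simpa using this)
  have hprod : ∏ i, w i = Real.exp (-(199 / 200)) := by
    have h1 := congrArg ENNReal.toReal hP
    rw [ENNReal.toReal_prod, ENNReal.toReal_ofReal (Real.exp_pos _).le] at h1
    exact h1
  have hwp : ∀ i, 0 < w i := by
    intro i
    rcases (hw0 i).lt_or_eq with h | h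
    · exact h
    · exfalso
      have : ∏ i, w i = 0 := Finset.prod_eq_zero (Finset.mem_univ i) h.symm
      rw [this] at hprod
      exact absurd hprod (Real.exp_pos _).ne
  have h1 : ∀ i, I.law i (Set.Ioi v) = ENNReal.ofReal (1 - w i) := by
    intro i
    rw [← Set.compl_Iic, prob_compl_eq_one_sub measurableSet_Iic,
      ENNReal.ofReal_sub _ (hw0 i), ENNReal.ofReal_one, hof]
    rfl
  rw [Finset.sum_congr rfl fun i _ => h1 i,
    ← ENNReal.ofReal_sum_of_nonneg fun i _ => by linarith [hw1 i]]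
  apply ENNReal.ofReal_le_ofReal
  have h2 : ∑ i, Real.log (w i) = -(199 / 200) := by
    rw [← Real.log_prod (fun j _ => (hwp j).ne'), hprod, Real.log_exp]
  have h3 : ∑ i, (1 - w i) ≤ ∑ i, -Real.log (w i) := by
    apply Finset.sum_le_sum
    intro i _
    have := Real.log_le_sub_one_of_pos (hwp i)
    linarith
  rw [Finset.sum_neg_distrib, h2] at h3
  linarith

/-- The final arithmetic. -/
lemma arith {n : ℕ} (hn : 1 ≤ n) {v p Z M1 W A O : ℝ} (hp : p = Real.exp (-(199 / 200)))
    (hv : 0 ≤ v) (hZ : 0 ≤ Z) (hM : 0 ≤ M1) (hW0 : 0 ≤ W)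
    (hM1 : M1 ≤ v * p) (hW : W ≤ v * (199 / 200) + Z) (hO : O ≤ v * (1 - p) + Z + M1)
    (hmain : (n.factorial : ℝ) * (v * (1 - p)) +
      n.factorial * ((1 - p) / (199 / 200)) * Z +
      ((n - (n - (n + 99) / 100) : ℕ) : ℝ) * (((n - 1).factorial : ℝ) * M1) ≤
      n.factorial * A +
      (((n - 1 - (n - (n + 99) / 100) : ℕ) : ℝ) / ((n - (n + 99) / 100 + 1 : ℕ) : ℝ)) *
      (((n - 1 - (n - (n + 99) / 100) : ℕ) : ℝ) *
        (((n - 1).factorial : ℝ) * (W + M1)))) :
    633 / 1000 * O ≤ A := by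
  have hpb := exp_bound
  rw [← hp] at hpb
  have hp0 : 0 < p := by rw [hp]; exact Real.exp_pos _
  set m := (n + 99) / 100 with hm
  have hm1 : 1 ≤ m := by omega
  have hmn : m ≤ n := by omega
  have e1 : n - (n - m) = m := by omega
  have e2 : n - 1 - (n - m) = m - 1 := by omega
  have e3 : n - m + 1 = n + 1 - m := by omega
  rw [e1, e2, e3] at hmain
  have hfac : (n.factorial : ℝ) = (n - 1).factorial * n := by
    rw [← Nat.mul_factorial_pred (by omega : n ≠ 0)]; push_cast; ring
  have hf0 : (0 : ℝ) < ((n - 1).factorial : ℝ) := by exact_mod_cast Nat.factorial_pos _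
  have hn0 : (0 : ℝ) < n := by exact_mod_cast hn
  rw [hfac] at hmain
  set κ : ℝ := ((m - 1 : ℕ) : ℝ) / ((n + 1 - m : ℕ) : ℝ) with hκ
  have f1 : ((m - 1 : ℕ) : ℝ) ≤ n / 100 := by
    rw [le_div_iff₀ (by norm_num)]
    have : (m - 1) * 100 ≤ n := by omega
    exact_mod_cast this
  have f2 : (n : ℝ) / 100 ≤ m := by
    rw [div_le_iff₀ (by norm_num)]
    have : n ≤ m * 100 := by omega
    exact_mod_cast this
  have f3 : (n : ℝ) * 99 / 100 ≤ ((n + 1 - m : ℕ) : ℝ) := by
    rw [div_le_iff₀ (by norm_num)]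
    have : n * 99 ≤ (n + 1 - m) * 100 := by omega
    exact_mod_cast this
  have f4 : (0 : ℝ) < ((n + 1 - m : ℕ) : ℝ) := lt_of_lt_of_le (by positivity) f3
  have hκ1 : κ ≤ 1 / 99 := by
    rw [hκ, div_le_div_iff₀ f4 (by norm_num)]
    linarith
  have hκ0 : 0 ≤ κ := by rw [hκ]; positivity
  have f5 : (0 : ℝ) ≤ ((m - 1 : ℕ) : ℝ) := Nat.cast_nonneg _
  -- divide by (n - 1)!
  have hmain2 : (n : ℝ) * (v * (1 - p)) + n * ((1 - p) / (199 / 200)) * Z + m * M1 ≤
      n * A + κ * (((m - 1 : ℕ) : ℝ) * (W + M1)) := by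
    have h1 : ((n - 1).factorial : ℝ) * ((n : ℝ) * (v * (1 - p)) +
        n * ((1 - p) / (199 / 200)) * Z + m * M1) ≤
        ((n - 1).factorial : ℝ) * (n * A + κ * (((m - 1 : ℕ) : ℝ) * (W + M1))) := by
      linarith
    exact le_of_mul_le_mul_left h1 hf0
  -- the loss
  have g1 : κ * (((m - 1 : ℕ) : ℝ) * (W + M1)) ≤ 1 / 99 * (n / 100 * (W + M1)) := by
    apply mul_le_mul hκ1 _ (by positivity) (by norm_num)
    exact mul_le_mul_of_nonneg_right f1 (by linarith)
  have g2 : (n : ℝ) / 100 * M1 ≤ m * M1 := mul_le_mul_of_nonneg_right f2 hM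
  have hmain3 : (n : ℝ) * (v * (1 - p) + ((1 - p) / (199 / 200)) * Z + M1 / 100) ≤
      n * (A + (W + M1) / 9900) := by
    linarith
  have hmain4 := le_of_mul_le_mul_left hmain3 hn0
  have b1 : (633 / 1000 : ℝ) + 1 / 9900 ≤ (1 - p) / (199 / 200) := by
    rw [le_div_iff₀ (by norm_num)]
    linarith
  have b2 := mul_le_mul_of_nonneg_right b1 hZ
  have b3 : (0 : ℝ) ≤ v * (1 - 633 / 1000 - p + 98 / 9900 * p - 1 / 9900 * (199 / 200)) := by
    apply mul_nonneg hv
    linarith
  nlinarith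

end Pool.Agent.R566.Secretary
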