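import Pool.Agent.R566.Secretary.Jensen

set_option autoImplicit false

open MeasureTheory ProbabilityTheory
open scoped ENNReal BigOperators

namespace Pool.Agent.R566.Secretary

variable {n : ℕ} (I : Instance n)

/-- `E (x_i - v)^+`. -/
noncomputable def zi (v : ℝ) (i : Fin n) : ℝ≥0∞ := ∫⁻ y, ENNReal.ofReal (y - v) ∂(I.law i)

/-- `P (x_i ≤ v)`. -/
noncomputable def wi (v : ℝ) (i : Fin n) : ℝ≥0∞ := I.law i (Set.Iic v)

instance : IsProbabilityMeasure I.joint := by unfold Instance.joint; infer_instance

lemma joint_le (v : ℝ) : I.joint {x | ∀ i, x i ≤ v} = ∏ i, wi I v i := by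
  have : {x : Fin n → ℝ | ∀ i, x i ≤ v} = Set.pi Set.univ (fun _ => Set.Iic v) := by
    ext x
    rw [Set.mem_univ_pi]
    rfl
  rw [this]
  unfold Instance.joint wi
  rw [Measure.pi_pi]

lemma measurableSet_le (v : ℝ) : MeasurableSet {x : Fin n → ℝ | ∀ i, x i ≤ v} := by
  have : {x : Fin n → ℝ | ∀ i, x i ≤ v} = Set.pi Set.univ (fun _ => Set.Iic v) := by
    ext x
    rw [Set.mem_univ_pi]
    rfl
  rw [this]
  exact MeasurableSet.univ_pi fun _ => measurableSet_Iic

lemma measurableSet_gt (v : ℝ) : MeasurableSet {x : Fin n → ℝ | ∃ i, v < x i} := by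
  have : {x : Fin n → ℝ | ∃ i, v < x i} = {x : Fin n → ℝ | ∀ i, x i ≤ v}ᶜ := by
    ext x; simp
  rw [this]
  exact (measurableSet_le v).compl

lemma joint_gt (v : ℝ) : I.joint {x | ∃ i, v < x i} = 1 - ∏ i, wi I v i := by
  have : {x : Fin n → ℝ | ∃ i, v < x i} = {x : Fin n → ℝ | ∀ i, x i ≤ v}ᶜ := by
    ext x; simp
  rw [this, prob_compl_eq_one_sub (measurableSet_le v), joint_le]

lemma lintegral_eval {f : ℝ → ℝ≥0∞} (hf : Measurable f) (i : Fin n) :
    ∫⁻ x, f (x i) ∂I.joint = ∫⁻ y, f y ∂(I.law i) :=
  (measurePreserving_eval I.law i).lintegral_comp hf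

lemma g1_eq (v : ℝ) (y : Fin n → ℝ) (t : Fin n) :
    g1 v y t = ENNReal.ofReal (y t - v) *
      ∏ s ∈ Finset.univ.filter (fun s => s < t), (Set.Iic v).indicator (fun _ => (1 : ℝ≥0∞)) (y s) := by
  classical
  unfold g1
  by_cases h : ∀ s < t, y s ≤ v
  · rw [if_pos h, Finset.prod_eq_one, mul_one]
    intro s hs
    rw [Finset.mem_filter] at hs
    rw [Set.indicator_of_mem (Set.mem_Iic.2 (h s hs.2))]
  · rw [if_neg h]
    push Not at h
    obtain ⟨s, hs, hs2⟩ := h
    rw [Finset.prod_eq_zero (i := s), mul_zero]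
    · rw [Finset.mem_filter]; exact ⟨Finset.mem_univ _, hs⟩
    · rw [Set.indicator_of_notMem]
      rw [Set.mem_Iic]; exact not_le.2 hs2

lemma lintegral_g1 (v : ℝ) (σ : Equiv.Perm (Fin n)) (t : Fin n) :
    ∫⁻ x, g1 v (fun i => x (σ i)) t ∂I.joint =
      zi I v (σ t) * ∏ s ∈ Finset.univ.filter (fun s => s < t), wi I v (σ s) := by
  classical
  set h : Fin n → ℝ → ℝ≥0∞ := fun j y =>
    if j = σ t then ENNReal.ofReal (y - v) else (Set.Iic v).indicator (fun _ => (1 : ℝ≥0∞)) y with hh
  have hmeas : ∀ j, Measurable (h j) := by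
    intro j
    simp only [hh]
    split_ifs
    · exact (measurable_id.sub_const v).ennreal_ofReal
    · exact measurable_const.indicator measurableSet_Iic
  have hind : iIndepFun (fun j (x : Fin n → ℝ) => h j (x j)) I.joint :=
    iIndepFun_pi (fun j => (hmeas j).aemeasurable)
  set S : Finset (Fin n) := (insert t (Finset.univ.filter fun s => s < t)).image σ with hS
  have h1 := lintegral_prod_eq_prod_lintegral_of_indepFun S (fun j (x : Fin n → ℝ) => h j (x j)) hind
    (fun j => (hmeas j).comp (measurable_pi_apply j))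
  have hnot : t ∉ Finset.univ.filter (fun s => s < t) := by simp
  have h2 : ∀ f : Fin n → ℝ≥0∞, ∏ j ∈ S, f j =
      f (σ t) * ∏ s ∈ Finset.univ.filter (fun s => s < t), f (σ s) := by
    intro f
    rw [hS, Finset.prod_image (fun a _ b _ hab => σ.injective hab), Finset.prod_insert hnot]
  have hne : ∀ s ∈ Finset.univ.filter (fun s => s < t), σ s ≠ σ t := by
    intro s hs h3
    rw [Finset.mem_filter] at hs
    exact ne_of_lt hs.2 (σ.injective h3)
  rw [h2 (fun j => ∫⁻ x, h j (x j) ∂I.joint)] at h1
  have h3 : ∀ x : Fin n → ℝ, ∏ j ∈ S, h j (x j) = g1 v (fun i => x (σ i)) t := by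
    intro x
    rw [h2 (fun j => h j (x j)), g1_eq]
    congr 1
    · simp only [hh, if_true]
    · apply Finset.prod_congr rfl
      intro s hs
      simp only [hh]
      rw [if_neg (hne s hs)]
  simp only [h3] at h1
  rw [h1]
  congr 1
  · rw [lintegral_eval I (hmeas _)]
    unfold zi
    simp only [hh, if_true]
  · apply Finset.prod_congr rfl
    intro s hs
    rw [lintegral_eval I (hmeas _)]
    unfold wi
    simp only [hh]
    rw [← lintegral_indicator_one measurableSet_Iic]
    congr 1
    funext y
    rw [if_neg (hne s hs)]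
    rfl

lemma measurable_g1 (v : ℝ) (σ : Equiv.Perm (Fin n)) (t : Fin n) :
    Measurable fun x : Fin n → ℝ => g1 v (fun i => x (σ i)) t := by
  simp only [g1_eq]
  apply Measurable.mul
  · exact (Measurable.sub (measurable_pi_apply (σ t)) measurable_const).ennreal_ofReal
  · apply Finset.measurable_prod
    intro s _
    exact (measurable_const.indicator measurableSet_Iic).comp (measurable_pi_apply (σ s))

lemma measurable_g2 (v : ℝ) (t : Fin n) :
    Measurable fun x : Fin n → ℝ => g2 v x t := by
  classical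
  unfold g2
  apply Measurable.ite
  · apply MeasurableSet.inter (measurableSet_le v)
    have : {x : Fin n → ℝ | ∀ s, s ≠ t → x s < x t} = ⋂ s, ⋂ (_ : s ≠ t), {x | x s < x t} := by
      ext x; simp
    show MeasurableSet {x : Fin n → ℝ | ∀ s, s ≠ t → x s < x t}
    rw [this]
    exact MeasurableSet.iInter fun s => MeasurableSet.iInter fun _ =>
      measurableSet_lt (measurable_pi_apply s) (measurable_pi_apply t)
  · exact (measurable_pi_apply t).ennreal_ofReal
  · exact measurable_const

lemma measurable_m1 (v : ℝ) : Measurable (m1 v : (Fin n → ℝ) → ℝ≥0∞) := by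
  unfold m1
  exact Finset.measurable_sum _ fun i _ => measurable_g2 v i

lemma measurable_zz (v : ℝ) : Measurable (zz v : (Fin n → ℝ) → ℝ≥0∞) := by
  unfold zz
  exact Finset.measurable_sum _ fun t _ => Finset.measurable_sum _ fun σ _ => measurable_g1 v σ t

lemma measurable_aa (v : ℝ) : Measurable (aa v : (Fin n → ℝ) → ℝ≥0∞) := by
  classical
  unfold aa
  exact Measurable.ite (measurableSet_gt v) measurable_const measurable_const

lemma measurable_ww (v : ℝ) : Measurable (ww v : (Fin n → ℝ) → ℝ≥0∞) := by
  classical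
  unfold ww
  apply Finset.measurable_sum
  intro i _
  apply Measurable.ite
  · exact measurableSet_lt measurable_const (measurable_pi_apply i)
  · exact (measurable_pi_apply i).ennreal_ofReal
  · exact measurable_const

lemma lintegral_zz (v : ℝ) : ∫⁻ x, zz v x ∂I.joint =
    ∑ t, ∑ σ : Equiv.Perm (Fin n),
      zi I v (σ t) * ∏ s ∈ Finset.univ.filter (fun s => s < t), wi I v (σ s) := by
  unfold zz
  rw [lintegral_finsetSum _ fun t _ => Finset.measurable_sum _ fun σ _ => measurable_g1 v σ t]
  apply Finset.sum_congr rfl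
  intro t _
  rw [lintegral_finsetSum _ fun σ _ => measurable_g1 v σ t]
  apply Finset.sum_congr rfl
  intro σ _
  exact lintegral_g1 I v σ t

lemma lintegral_aa (v : ℝ) : ∫⁻ x, aa v x ∂I.joint =
    ENNReal.ofReal v * I.joint {x | ∃ i, v < x i} := by
  classical
  have : ∀ x : Fin n → ℝ, aa v x = {x : Fin n → ℝ | ∃ i, v < x i}.indicator
      (fun _ => ENNReal.ofReal v) x := by
    intro x
    unfold aa
    by_cases h : ∃ i, v < x i
    · rw [if_pos h, Set.indicator_of_mem (by exact h)]
    · rw [if_neg h, Set.indicator_of_notMem (by exact h)]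
  simp_rw [this]
  rw [lintegral_indicator_const (measurableSet_gt v)]

lemma lintegral_ww {v : ℝ} (hv : 0 ≤ v) : ∫⁻ x, ww v x ∂I.joint =
    ENNReal.ofReal v * (∑ i, I.law i (Set.Ioi v)) + ∑ i, zi I v i := by
  classical
  unfold ww
  have hm : ∀ i : Fin n, Measurable (fun y : ℝ => if v < y then ENNReal.ofReal y else 0) := by
    intro i
    apply Measurable.ite measurableSet_Ioi
    · exact measurable_id.ennreal_ofReal
    · exact measurable_const
  have hm2 : ∀ i : Fin n, Measurable (fun x : Fin n → ℝ => if v < x i then ENNReal.ofReal (x i) else 0) :=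
    fun i => (hm i).comp (measurable_pi_apply i)
  rw [lintegral_finsetSum _ fun i _ => hm2 i, Finset.mul_sum, ← Finset.sum_add_distrib]
  apply Finset.sum_congr rfl
  intro i _
  rw [lintegral_eval I (f := fun y => if v < y then ENNReal.ofReal y else 0) (hm i)]
  have : ∀ y : ℝ, (if v < y then ENNReal.ofReal y else 0) =
      (Set.Ioi v).indicator (fun _ => ENNReal.ofReal v) y + ENNReal.ofReal (y - v) := by
    intro y
    by_cases hy : v < y
    · rw [if_pos hy, Set.indicator_of_mem (Set.mem_Ioi.2 hy), ← ENNReal.ofReal_add hv (by linarith)]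
      congr 1; ring
    · rw [if_neg hy, Set.indicator_of_notMem (fun h => hy (Set.mem_Ioi.1 h)),
        ENNReal.ofReal_of_nonpos (by linarith), add_zero]
  simp_rw [this]
  rw [lintegral_add_left (measurable_const.indicator measurableSet_Ioi),
    lintegral_indicator_const measurableSet_Ioi]
  rfl

/-- Ties have probability zero. -/
lemma ae_distinct : ∀ᵐ x ∂I.joint, ∀ i j : Fin n, i ≠ j → x i ≠ x j := by
  rw [ae_all_iff]; intro i
  rw [ae_all_iff]; intro j
  rw [ae_all_iff]; intro hij
  have hind : iIndepFun (fun j (x : Fin n → ℝ) => x j) I.joint :=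
    iIndepFun_pi (X := fun _ => id) (fun j => measurable_id.aemeasurable)
  have h1 := hind.indepFun hij
  rw [indepFun_iff_map_prod_eq_prod_map_map (measurable_pi_apply i).aemeasurable
    (measurable_pi_apply j).aemeasurable] at h1
  have hi : I.joint.map (fun x => x i) = I.law i := (measurePreserving_eval I.law i).map_eq
  have hj : I.joint.map (fun x => x j) = I.law j := (measurePreserving_eval I.law j).map_eq
  rw [hi, hj] at h1
  rw [ae_iff]
  have h2 : {x : Fin n → ℝ | ¬ x i ≠ x j} = (fun x : Fin n → ℝ => (x i, x j)) ⁻¹'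
      {p : ℝ × ℝ | p.1 = p.2} := by
    ext x; simp
  have hdiag : MeasurableSet {p : ℝ × ℝ | p.1 = p.2} := measurableSet_eq_fun measurable_fst
    measurable_snd
  rw [h2, ← Measure.map_apply ((measurable_pi_apply i).prodMk (measurable_pi_apply j)) hdiag, h1,
    Measure.prod_apply hdiag]
  have h3 : ∀ a : ℝ, I.law j (Prod.mk a ⁻¹' {p : ℝ × ℝ | p.1 = p.2}) = 0 := by
    intro a
    have : Prod.mk a ⁻¹' {p : ℝ × ℝ | p.1 = p.2} = {a} := by
      ext b
      simp [eq_comm]
    rw [this]
    exact I.law_noAtoms j a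
  simp_rw [h3]
  simp

/-- The upper bound for the prophet. -/
lemma opt_le (v : ℝ) : I.opt ≤
    ENNReal.ofReal v * I.joint {x | ∃ i, v < x i} + (∑ i, zi I v i) + ∫⁻ x, m1 v x ∂I.joint := by
  classical
  have hz : ∀ i : Fin n, Measurable fun x : Fin n → ℝ => ENNReal.ofReal (x i - v) :=
    fun i => (Measurable.sub (measurable_pi_apply i) measurable_const).ennreal_ofReal
  have h1 : I.opt ≤ ∫⁻ x, (aa v x + (∑ i, ENNReal.ofReal (x i - v)) + m1 v x) ∂I.joint := by
    unfold Instance.opt
    apply lintegral_mono_ae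
    filter_upwards [ae_distinct I] with x hx
    apply iSup_le
    intro i
    by_cases h : ∃ i, v < x i
    · refine le_add_right ?_
      unfold aa
      rw [if_pos h]
      calc ENNReal.ofReal (x i) ≤ ENNReal.ofReal (v + (x i - v)) := by
            apply ENNReal.ofReal_le_ofReal; linarith
        _ ≤ ENNReal.ofReal v + ENNReal.ofReal (x i - v) := ENNReal.ofReal_add_le
        _ ≤ _ := add_le_add (le_refl _)
            (Finset.single_le_sum (f := fun i => ENNReal.ofReal (x i - v))
              (fun _ _ => zero_le) (Finset.mem_univ i))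
    · push Not at h
      refine le_add_left ?_
      obtain ⟨j, -, hj⟩ := Finset.exists_max_image Finset.univ x ⟨i, Finset.mem_univ i⟩
      unfold m1
      refine le_trans ?_ (Finset.single_le_sum (f := fun i => g2 v x i)
              (fun _ _ => zero_le) (Finset.mem_univ j))
      unfold g2
      rw [if_pos]
      · exact ENNReal.ofReal_le_ofReal (hj i (Finset.mem_univ i))
      · exact ⟨h, fun s hs => lt_of_le_of_ne (hj s (Finset.mem_univ s)) (hx s j hs)⟩
  refine h1.trans (le_of_eq ?_)
  rw [lintegral_add_right _ (measurable_m1 v), lintegral_add_left (measurable_aa v), lintegral_aa,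
    lintegral_finsetSum _ fun i _ => hz i]
  congr 2
  apply Finset.sum_congr rfl
  intro i _
  exact lintegral_eval I (f := fun y => ENNReal.ofReal (y - v))
    ((measurable_id.sub_const v).ennreal_ofReal) i

/-- The bound for the part below `v`. -/
lemma m1_le (v : ℝ) : ∫⁻ x, m1 v x ∂I.joint ≤ ENNReal.ofReal v * ∏ i, wi I v i := by
  classical
  rw [← joint_le, ← lintegral_indicator_const (measurableSet_le v)]
  apply lintegral_mono
  intro x
  by_cases h : ∀ i, x i ≤ v
  · rw [Set.indicator_of_mem (by exact h)]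
    unfold m1
    by_cases h2 : ∃ i, g2 v x i ≠ 0
    · obtain ⟨i, hi⟩ := h2
      have hi2 : (∀ s, x s ≤ v) ∧ ∀ s, s ≠ i → x s < x i := by
        by_contra h3
        apply hi
        unfold g2
        rw [if_neg h3]
      rw [Finset.sum_eq_single i]
      · unfold g2
        rw [if_pos hi2]
        exact ENNReal.ofReal_le_ofReal (h i)
      · intro j _ hj
        unfold g2
        rw [if_neg]
        rintro ⟨-, h4⟩
        exact lt_asymm (hi2.2 j hj) (h4 i hj.symm)
      · intro h3
        exact absurd (Finset.mem_univ i) h3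
    · push Not at h2
      rw [Finset.sum_eq_zero fun i _ => h2 i]
      exact zero_le
  · have : m1 v x = 0 := by
      unfold m1
      apply Finset.sum_eq_zero
      intro i _
      unfold g2
      rw [if_neg fun h2 => h h2.1]
    rw [this]
    exact zero_le

end Pool.Agent.R566.Secretary
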