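import Pool.Agent.R566.Secretary.Lower

set_option autoImplicit false

open MeasureTheory
open scoped ENNReal BigOperators

namespace Pool.Agent.R566.Secretary

variable {n : ℕ}

open Classical in
/-- The average of a function of the value at time `s`, given the value at time `t`. -/
lemma sum_pair (i s t : Fin n) (hst : s ≠ t) (f : Fin n → ℝ) :
    ((n - 1 : ℕ) : ℝ) * ∑ σ ∈ Finset.univ.filter (fun σ : Equiv.Perm (Fin n) => σ t = i), f (σ s) =
      ((n - 1).factorial : ℝ) * ∑ j ∈ Finset.univ.erase i, f j := by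
  set A := Finset.univ.filter (fun σ : Equiv.Perm (Fin n) => σ t = i) with hA
  have hmem : ∀ σ, σ ∈ A ↔ σ t = i := by intro σ; simp [hA]
  have hmaps : ∀ σ ∈ A, σ s ∈ Finset.univ.erase i := by
    intro σ hσ
    rw [hmem] at hσ
    rw [Finset.mem_erase]
    refine ⟨fun h => hst (σ.injective (h.trans hσ.symm)), Finset.mem_univ _⟩
  have hcard : ∀ j ∈ Finset.univ.erase i, ∀ j' ∈ Finset.univ.erase i,
      (A.filter fun σ => σ s = j).card = (A.filter fun σ => σ s = j').card := by
    intro j hj j' hj'
    rw [Finset.mem_erase] at hj hj'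
    apply Finset.card_bij (fun σ _ => Equiv.swap j j' * σ)
    · intro σ hσ
      rw [Finset.mem_filter, hmem] at hσ ⊢
      refine ⟨?_, ?_⟩
      · rw [Equiv.Perm.mul_apply, hσ.1, Equiv.swap_apply_of_ne_of_ne hj.1.symm hj'.1.symm]
      · rw [Equiv.Perm.mul_apply, hσ.2, Equiv.swap_apply_left]
    · intro σ _ τ _ h
      exact mul_left_cancel h
    · intro σ hσ
      rw [Finset.mem_filter, hmem] at hσ
      refine ⟨Equiv.swap j j' * σ, ?_, ?_⟩
      · rw [Finset.mem_filter, hmem]
        refine ⟨?_, ?_⟩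
        · rw [Equiv.Perm.mul_apply, hσ.1, Equiv.swap_apply_of_ne_of_ne hj.1.symm hj'.1.symm]
        · rw [Equiv.Perm.mul_apply, hσ.2, Equiv.swap_apply_right]
      · rw [← mul_assoc, Equiv.swap_mul_self, one_mul]
  have hAc : A.card = (n - 1).factorial := card_at i t
  have htot : ∑ j ∈ Finset.univ.erase i, (A.filter fun σ => σ s = j).card = (n - 1).factorial := by
    rw [← Finset.card_eq_sum_card_fiberwise hmaps, hAc]
  have hec : (Finset.univ.erase i).card = n - 1 := by
    rw [Finset.card_erase_of_mem (Finset.mem_univ _), Finset.card_univ, Fintype.card_fin]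
  rw [← Finset.sum_fiberwise_of_maps_to hmaps, Finset.mul_sum, Finset.mul_sum]
  apply Finset.sum_congr rfl
  intro j hj
  rw [Finset.sum_congr rfl (g := fun _ => f j) (by
    intro σ hσ
    rw [Finset.mem_filter] at hσ
    rw [hσ.2]), Finset.sum_const, nsmul_eq_mul, ← mul_assoc]
  congr 1
  rw [Finset.sum_congr rfl (fun j' hj' => hcard j' hj' j hj), Finset.sum_const, hec,
    smul_eq_mul] at htot
  exact_mod_cast htot

open Classical in
/-- The convexity bound for the probability that nothing above `v` comes before the value `i`,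
which comes at time `t`. -/
lemma jensen {w : Fin n → ℝ} {l : ℝ} (h0 : ∀ j, 0 < w j) (h1 : ∀ j, w j ≤ 1)
    (hw : Real.exp (-l) ≤ ∏ j, w j) (i t : Fin n) :
    ((n - 1).factorial : ℝ) * Real.exp (-(l * t.val / (n - 1 : ℕ))) ≤
      ∑ σ ∈ Finset.univ.filter (fun σ : Equiv.Perm (Fin n) => σ t = i),
        ∏ s ∈ Finset.univ.filter (fun s => s < t), w (σ s) := by
  have hl0 : ∀ j, Real.log (w j) ≤ 0 := fun j => Real.log_nonpos (h0 j).le (h1 j)
  have hS : -l ≤ ∑ j ∈ Finset.univ.erase i, Real.log (w j) := by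
    have h2 : -l ≤ ∑ j, Real.log (w j) := by
      rw [← Real.log_prod (fun j _ => (h0 j).ne')]
      rw [Real.le_log_iff_exp_le (Finset.prod_pos fun j _ => h0 j)]
      exact hw
    rw [← Finset.add_sum_erase _ _ (Finset.mem_univ i)] at h2
    linarith [hl0 i]
  have hfc : (0 : ℝ) < ((n - 1).factorial : ℝ) := by exact_mod_cast Nat.factorial_pos _
  have hprod : ∀ σ : Equiv.Perm (Fin n), ∏ s ∈ Finset.univ.filter (fun s => s < t), w (σ s) =
      Real.exp (∑ s ∈ Finset.univ.filter (fun s => s < t), Real.log (w (σ s))) := by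
    intro σ
    rw [Real.exp_sum]
    apply Finset.prod_congr rfl
    intro s _
    rw [Real.exp_log (h0 _)]
  by_cases ht : t.val = 0
  · have h3 : ∀ σ : Equiv.Perm (Fin n), ∏ s ∈ Finset.univ.filter (fun s => s < t), w (σ s) = 1 := by
      intro σ
      rw [Finset.filter_false_of_mem]
      · simp
      · intro s _ h
        have : s.val < t.val := h
        omega
    rw [Finset.sum_congr rfl fun σ _ => h3 σ, Finset.sum_const, card_at, nsmul_eq_mul, ht]
    simp
  have hn : 2 ≤ n := by have := t.isLt; omega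
  have hn1 : (0 : ℝ) < ((n - 1 : ℕ) : ℝ) := by
    have : 0 < n - 1 := by omega
    exact_mod_cast this
  set c : ℝ := -(l * t.val / (n - 1 : ℕ)) with hc
  have h3 : ∀ σ ∈ Finset.univ.filter (fun σ : Equiv.Perm (Fin n) => σ t = i),
      Real.exp c * (1 + (∑ s ∈ Finset.univ.filter (fun s => s < t), Real.log (w (σ s))) - c) ≤
      ∏ s ∈ Finset.univ.filter (fun s => s < t), w (σ s) := by
    intro σ _
    rw [hprod]
    set L := ∑ s ∈ Finset.univ.filter (fun s => s < t), Real.log (w (σ s)) with hL
    have h4 := Real.add_one_le_exp (L - c)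
    have h5 : Real.exp L = Real.exp c * Real.exp (L - c) := by
      rw [← Real.exp_add]; congr 1; ring
    rw [h5]
    apply mul_le_mul_of_nonneg_left _ (Real.exp_pos c).le
    linarith
  refine le_trans ?_ (Finset.sum_le_sum h3)
  rw [← Finset.mul_sum, Finset.sum_sub_distrib, Finset.sum_add_distrib, Finset.sum_const,
    Finset.sum_const, card_at, nsmul_eq_mul, nsmul_eq_mul, Finset.sum_comm]
  have h6 : ∀ s ∈ Finset.univ.filter (fun s => s < t),
      -(l * (n - 1).factorial / (n - 1 : ℕ)) ≤
      ∑ σ ∈ Finset.univ.filter (fun σ : Equiv.Perm (Fin n) => σ t = i), Real.log (w (σ s)) := by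
    intro s hs
    rw [Finset.mem_filter] at hs
    have h7 := sum_pair i s t (ne_of_lt hs.2) (fun j => Real.log (w j))
    have h8 : ∑ σ ∈ Finset.univ.filter (fun σ : Equiv.Perm (Fin n) => σ t = i), Real.log (w (σ s)) =
        ((n - 1).factorial : ℝ) * (∑ j ∈ Finset.univ.erase i, Real.log (w j)) / (n - 1 : ℕ) := by
      rw [eq_div_iff hn1.ne', mul_comm]
      exact h7
    rw [h8, ← neg_div]
    apply div_le_div_of_nonneg_right _ hn1.le
    have := mul_le_mul_of_nonneg_left hS hfc.le
    linarith
  have h9 := Finset.sum_le_sum h6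
  rw [Finset.sum_const, nsmul_eq_mul] at h9
  have hct : (Finset.univ.filter (fun s : Fin n => s < t)).card = t.val := by
    have : Finset.univ.filter (fun s : Fin n => s < t) = Finset.Iio t := by ext s; simp
    rw [this, Fin.card_Iio]
  rw [hct] at h9
  rw [mul_comm]
  apply mul_le_mul_of_nonneg_left _ (Real.exp_pos c).le
  have h10 : (t.val : ℝ) * -(l * (n - 1).factorial / (n - 1 : ℕ)) = (n - 1).factorial * c := by
    rw [hc]; ring
  rw [h10] at h9
  linarith

/-- Hermite–Hadamard for the exponential function. -/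
lemma hadamard {u : ℝ} (hu : 0 ≤ u) : 2 * (1 - Real.exp (-u)) ≤ u * (1 + Real.exp (-u)) := by
  have hd : ∀ x : ℝ, HasDerivAt (fun u : ℝ => u * (1 + Real.exp (-u)) - 2 * (1 - Real.exp (-u)))
      (1 - Real.exp (-x) * (1 + x)) x := by
    intro x
    have h1 : HasDerivAt (fun u : ℝ => Real.exp (-u)) (-Real.exp (-x)) x := by
      have := (hasDerivAt_neg x).exp
      rwa [mul_neg_one] at this
    have h2 := (hasDerivAt_id x).mul (h1.const_add 1)
    have h3 := (h1.const_sub 1).const_mul 2
    have h4 := h2.sub h3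
    have h5 : 1 - Real.exp (-x) * (1 + x) =
        1 * (1 + Real.exp (-x)) + id x * -Real.exp (-x) - 2 * - -Real.exp (-x) := by
      simp only [id]; ring
    rw [h5]
    exact h4
  have hm : MonotoneOn (fun u : ℝ => u * (1 + Real.exp (-u)) - 2 * (1 - Real.exp (-u)))
      (Set.Ici 0) := by
    apply monotoneOn_of_deriv_nonneg (convex_Ici 0)
    · exact (continuous_iff_continuousAt.2 fun x => (hd x).continuousAt).continuousOn
    · exact fun x _ => (hd x).differentiableAt.differentiableWithinAt
    · intro x hx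
      rw [(hd x).deriv]
      have h1 := Real.add_one_le_exp x
      have h2 := Real.exp_pos (-x)
      have h3 : Real.exp (-x) * Real.exp x = 1 := by rw [← Real.exp_add]; simp
      nlinarith
  have := hm (Set.mem_Ici.2 (le_refl 0)) (Set.mem_Ici.2 hu) hu
  simp only [neg_zero, Real.exp_zero] at this
  linarith

/-- The average over the times. -/
lemma avg_exp {l : ℝ} (hl : 0 < l) (hn : 1 ≤ n) :
    (n : ℝ) * ((1 - Real.exp (-l)) / l) ≤
      ∑ t : Fin n, Real.exp (-(l * t.val / (n - 1 : ℕ))) := by
  obtain ⟨m, rfl⟩ : ∃ m, n = m + 1 := ⟨n - 1, by omega⟩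
  simp only [Nat.add_sub_cancel]
  rw [Fin.sum_univ_eq_sum_range (fun t : ℕ => Real.exp (-(l * t / m)))]
  rcases Nat.eq_zero_or_pos m with hm | hm
  · subst hm
    simp only [zero_add, Finset.range_one, Finset.sum_singleton, Nat.cast_zero, mul_zero, zero_div,
      neg_zero, Real.exp_zero, Nat.cast_one, one_mul]
    rw [div_le_one hl]
    have := Real.add_one_le_exp (-l)
    linarith
  have hm0 : (0 : ℝ) < m := by exact_mod_cast hm
  set h : ℝ := l / m with hh
  have hh0 : 0 < h := div_pos hl hm0
  have hlm : l = m * h := by rw [hh]; field_simp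
  have h1 : ∀ t : ℕ, Real.exp (-(l * t / m)) = Real.exp (-(h * t)) := by
    intro t; congr 2; rw [hh]; ring
  rw [Finset.sum_congr rfl fun t _ => h1 t]
  have h2 : ∀ N : ℕ, (1 - Real.exp (-(h * N))) / h + (1 + Real.exp (-(h * N))) / 2 ≤
      ∑ t ∈ Finset.range (N + 1), Real.exp (-(h * t)) := by
    intro N
    induction N with
    | zero => simp
    | succ N ih =>
      rw [Finset.sum_range_succ]
      have h3 := hadamard hh0.le
      have h4 : Real.exp (-(h * (N + 1 : ℕ))) = Real.exp (-(h * N)) * Real.exp (-h) := by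
        rw [← Real.exp_add]; congr 1; push_cast; ring
      rw [h4]
      have h5 := Real.exp_pos (-(h * N))
      set E := Real.exp (-(h * N)) with hE
      set q := Real.exp (-h) with hq
      have h6 : (1 - q) / h ≤ (1 + q) / 2 := by
        rw [div_le_div_iff₀ hh0 (by norm_num)]
        linarith
      have h7 := mul_le_mul_of_nonneg_left h6 h5.le
      have h8 : (1 - E * q) / h = (1 - E) / h + E * ((1 - q) / h) := by ring
      rw [h8]
      linarith
  have h3 := h2 m
  have h4 : h * m = l := by rw [hlm]; ring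
  rw [h4] at h3
  refine le_trans ?_ h3
  have h5 := hadamard hl.le
  have h6 : (1 - Real.exp (-l)) / l ≤ (1 + Real.exp (-l)) / 2 := by
    rw [div_le_div_iff₀ hl (by norm_num)]
    linarith
  have h7 : (1 - Real.exp (-l)) / h = m * ((1 - Real.exp (-l)) / l) := by
    rw [hh]; field_simp
  rw [h7]
  push_cast
  linarith

end Pool.Agent.R566.Secretary
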