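import Pool.Agent.R566.Secretary.Point

set_option autoImplicit false

open MeasureTheory
open scoped ENNReal BigOperators

namespace Pool.Agent.R566.Secretary

variable {n : ℕ}

open Classical in
/-- The part of the target's value above `v`. -/
noncomputable def g1 (v : ℝ) (y : Fin n → ℝ) (t : Fin n) : ℝ≥0∞ :=
  if ∀ s < t, y s ≤ v then ENNReal.ofReal (y t - v) else 0

open Classical in
/-- The maximum when all values are at most `v`. -/
noncomputable def g2 (v : ℝ) (y : Fin n → ℝ) (t : Fin n) : ℝ≥0∞ :=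
  if (∀ s, y s ≤ v) ∧ ∀ s, s ≠ t → y s < y t then ENNReal.ofReal (y t) else 0

open Classical in
lemma ft_lower {v : ℝ} (hv : 0 ≤ v) (k : ℕ) (y : Fin n → ℝ) :
    (if ∃ t, v < y t then ENNReal.ofReal v else 0) + ∑ t, g1 v y t +
      ∑ t ∈ Finset.univ.filter (fun t : Fin n => k ≤ t.val), g2 v y t ≤ ∑ t, ft v k y t := by
  have h1 : ∀ t, (if v < y t ∧ ∀ s < t, y s ≤ v then ENNReal.ofReal v else 0) + g1 v y t +
      (if k ≤ t.val then g2 v y t else 0) ≤ ft v k y t := by
    intro t
    unfold ft g1 g2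
    by_cases ht : v < y t
    · have h2 : ¬ ((∀ s, y s ≤ v) ∧ ∀ s, s ≠ t → y s < y t) := fun h => absurd ht (not_lt.2 (h.1 t))
      rw [if_neg h2]
      by_cases h3 : ∀ s < t, y s ≤ v
      · rw [if_pos ⟨ht, h3⟩, if_pos h3, if_pos (show tgt v k y t from Or.inl ⟨ht, h3⟩), ite_self, add_zero,
          ← ENNReal.ofReal_add hv (by linarith)]
        apply ENNReal.ofReal_le_ofReal
        linarith
      · rw [if_neg (fun h => h3 h.2), if_neg h3, ite_self]
        simp
    · have h2 : ENNReal.ofReal (y t - v) = 0 := ENNReal.ofReal_of_nonpos (by linarith)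
      rw [if_neg (fun h => ht h.1), h2, ite_self, zero_add, zero_add]
      by_cases h3 : k ≤ t.val
      · rw [if_pos h3]
        by_cases h4 : (∀ s, y s ≤ v) ∧ ∀ s, s ≠ t → y s < y t
        · rw [if_pos h4, if_pos (show tgt v k y t from Or.inr ⟨h3, h4⟩)]
        · rw [if_neg h4]; exact zero_le
      · rw [if_neg h3]; exact zero_le
  refine le_trans ?_ (Finset.sum_le_sum fun t _ => h1 t)
  rw [Finset.sum_add_distrib, Finset.sum_add_distrib, Finset.sum_filter]
  refine add_le_add (add_le_add ?_ (le_refl _)) (le_refl _)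
  by_cases h : ∃ t, v < y t
  · rw [if_pos h]
    have hne : (Finset.univ.filter fun t => v < y t).Nonempty := by
      obtain ⟨t, ht⟩ := h
      exact ⟨t, by simp [ht]⟩
    set t := (Finset.univ.filter fun t => v < y t).min' hne with ht
    have h2 : v < y t := by
      have := Finset.min'_mem _ hne
      rw [Finset.mem_filter] at this
      exact this.2
    have h3 : ∀ s < t, y s ≤ v := by
      intro s hs
      by_contra h4
      push Not at h4
      have : t ≤ s := Finset.min'_le _ _ (by simp [h4])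
      exact absurd hs (not_lt.2 this)
    refine le_trans ?_ (Finset.single_le_sum (f := fun t => if v < y t ∧ ∀ s < t, y s ≤ v then
      ENNReal.ofReal v else 0) (fun _ _ => zero_le) (Finset.mem_univ t))
    rw [if_pos ⟨h2, h3⟩]
  · rw [if_neg h]; exact zero_le

open Classical in
lemma ft_upper (v : ℝ) (k : ℕ) (y : Fin n → ℝ) (t : Fin n) :
    ft v k y t ≤ (if v < y t then ENNReal.ofReal (y t) else 0) + g2 v y t := by
  unfold ft g2
  by_cases h : tgt v k y t
  · rw [if_pos h]
    rcases h with ⟨h1, h2⟩ | ⟨h1, h2, h3⟩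
    · rw [if_pos h1]; exact le_self_add
    · rw [if_pos (⟨h2, h3⟩ : (∀ s, y s ≤ v) ∧ ∀ s, s ≠ t → y s < y t)]; exact le_add_self
  · rw [if_neg h]; exact zero_le

open Classical in
/-- The sum of the values above `v`. -/
noncomputable def ww (v : ℝ) (x : Fin n → ℝ) : ℝ≥0∞ :=
  ∑ i, if v < x i then ENNReal.ofReal (x i) else 0

/-- The maximum when all values are at most `v`. -/
noncomputable def m1 (v : ℝ) (x : Fin n → ℝ) : ℝ≥0∞ := ∑ i, g2 v x i

open Classical in
/-- The indicator of the event that some value is above `v`, times `v`. -/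
noncomputable def aa (v : ℝ) (x : Fin n → ℝ) : ℝ≥0∞ :=
  if ∃ i, v < x i then ENNReal.ofReal v else 0

/-- The sum of the parts above `v`. -/
noncomputable def zz (v : ℝ) (x : Fin n → ℝ) : ℝ≥0∞ :=
  ∑ t, ∑ σ : Equiv.Perm (Fin n), g1 v (fun i => x (σ i)) t

lemma g2_perm (v : ℝ) (x : Fin n → ℝ) (σ : Equiv.Perm (Fin n)) (t : Fin n) :
    g2 v (fun i => x (σ i)) t = g2 v x (σ t) := by
  unfold g2
  have h : ((∀ s, x (σ s) ≤ v) ∧ ∀ s, s ≠ t → x (σ s) < x (σ t)) ↔
      ((∀ s, x s ≤ v) ∧ ∀ s, s ≠ σ t → x s < x (σ t)) := by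
    constructor
    · rintro ⟨h1, h2⟩
      refine ⟨fun s => ?_, fun s hs => ?_⟩
      · have := h1 (σ.symm s)
        rwa [Equiv.apply_symm_apply] at this
      · have := h2 (σ.symm s) (fun h => hs (by rw [← h, Equiv.apply_symm_apply]))
        rwa [Equiv.apply_symm_apply] at this
    · rintro ⟨h1, h2⟩
      exact ⟨fun s => h1 _, fun s hs => h2 _ (fun h => hs (σ.injective h))⟩
  by_cases h1 : (∀ s, x s ≤ v) ∧ ∀ s, s ≠ σ t → x s < x (σ t)
  · exact (if_pos (h.2 h1)).trans (if_pos h1).symm
  · exact (if_neg (fun h2 => h1 (h.1 h2))).trans (if_neg h1).symm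

/-- The inequality for fixed values, averaged over all orders. -/
lemma fixed_values {v : ℝ} (hv : 0 ≤ v) (x : Fin n → ℝ) :
    (n.factorial : ℝ≥0∞) * aa v x + zz v x +
      ((n - (n - (n + 99) / 100) : ℕ) : ℝ≥0∞) * (((n - 1).factorial : ℝ≥0∞) * m1 v x) ≤
    (∑ σ : Equiv.Perm (Fin n), algo.value v (fun i => x (σ i))) +
      KK n (n - (n + 99) / 100) * (((n - 1 - (n - (n + 99) / 100) : ℕ) : ℝ≥0∞) *
        (((n - 1).factorial : ℝ≥0∞) * (ww v x + m1 v x))) := by
  classical
  set k := n - (n + 99) / 100 with hk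
  have h1 := sum_bound v x
  rw [← hk] at h1
  have h2 : (n.factorial : ℝ≥0∞) * aa v x + zz v x +
      ((n - k : ℕ) : ℝ≥0∞) * (((n - 1).factorial : ℝ≥0∞) * m1 v x) ≤
      ∑ t, ∑ σ : Equiv.Perm (Fin n), ft v k (fun i => x (σ i)) t := by
    rw [Finset.sum_comm]
    refine le_trans (le_of_eq ?_) (Finset.sum_le_sum fun σ _ => ft_lower hv k (fun i => x (σ i)))
    rw [Finset.sum_add_distrib, Finset.sum_add_distrib]
    congr 1
    · congr 1
      · have h3 : ∀ σ : Equiv.Perm (Fin n),
            (if ∃ t, v < x (σ t) then ENNReal.ofReal v else 0) = aa v x := by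
          intro σ
          unfold aa
          have h4 : (∃ t, v < x (σ t)) ↔ ∃ i, v < x i := by
            constructor
            · rintro ⟨t, ht⟩; exact ⟨σ t, ht⟩
            · rintro ⟨i, hi⟩; exact ⟨σ.symm i, by rwa [Equiv.apply_symm_apply]⟩
          by_cases h5 : ∃ i, v < x i
          · rw [if_pos (h4.2 h5), if_pos h5]
          · rw [if_neg (fun h => h5 (h4.1 h)), if_neg h5]
        rw [Finset.sum_congr rfl fun σ _ => h3 σ, Finset.sum_const, Finset.card_univ,
          Fintype.card_perm, Fintype.card_fin, nsmul_eq_mul]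
      · unfold zz
        rw [Finset.sum_comm]
    · rw [Finset.sum_comm]
      have h3 : ∀ t ∈ Finset.univ.filter (fun t : Fin n => k ≤ t.val),
          ∑ σ : Equiv.Perm (Fin n), g2 v (fun i => x (σ i)) t =
          ((n - 1).factorial : ℝ≥0∞) * m1 v x := by
        intro t _
        rw [Finset.sum_congr rfl fun σ _ => g2_perm v x σ t]
        exact sum_at t (fun i => g2 v x i)
      rw [Finset.sum_congr rfl h3, Finset.sum_const, nsmul_eq_mul]
      have hcard : (Finset.univ.filter (fun t : Fin n => k ≤ t.val)).card = n - k := by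
        have : (Finset.univ.filter (fun t : Fin n => k ≤ t.val)).map Fin.valEmbedding =
            Finset.Ico k n := by
          ext j
          simp only [Finset.mem_map, Finset.mem_filter, Finset.mem_univ, true_and,
            Fin.valEmbedding_apply, Finset.mem_Ico]
          constructor
          · rintro ⟨a, h3, rfl⟩
            exact ⟨h3, a.isLt⟩
          · rintro ⟨h3, h4⟩
            exact ⟨⟨j, h4⟩, h3, rfl⟩
        rw [← Finset.card_map Fin.valEmbedding, this, Nat.card_Ico]
      rw [hcard]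
  refine h2.trans (h1.trans (add_le_add (le_refl _) (mul_le_mul_right ?_ _)))
  have h4 : ∀ t ∈ Finset.univ.filter (fun t : Fin n => k < t.val),
      ∑ σ : Equiv.Perm (Fin n), ft v k (fun i => x (σ i)) t ≤
        ((n - 1).factorial : ℝ≥0∞) * (ww v x + m1 v x) := by
    intro t _
    refine (Finset.sum_le_sum fun σ _ => ft_upper v k (fun i => x (σ i)) t).trans ?_
    rw [Finset.sum_add_distrib, mul_add]
    refine add_le_add (le_of_eq ?_) (le_of_eq ?_)
    · exact sum_at t (fun i => if v < x i then ENNReal.ofReal (x i) else 0)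
    · rw [Finset.sum_congr rfl fun σ _ => g2_perm v x σ t]
      exact sum_at t (fun i => g2 v x i)
  refine (Finset.sum_le_sum h4).trans ?_
  rw [Finset.sum_const, nsmul_eq_mul]
  apply mul_le_mul_left
  have hcard : (Finset.univ.filter (fun t : Fin n => k < t.val)).card = n - 1 - k := by
    have : (Finset.univ.filter (fun t : Fin n => k < t.val)).map Fin.valEmbedding =
        Finset.Ioo k n := by
      ext j
      simp only [Finset.mem_map, Finset.mem_filter, Finset.mem_univ, true_and,
        Fin.valEmbedding_apply, Finset.mem_Ioo]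
      constructor
      · rintro ⟨a, h3, rfl⟩
        exact ⟨h3, a.isLt⟩
      · rintro ⟨h3, h4⟩
        exact ⟨⟨j, h4⟩, h3, rfl⟩
    rw [← Finset.card_map Fin.valEmbedding, this, Nat.card_Ioo]
    omega
  rw [hcard]

end Pool.Agent.R566.Secretary
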