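import Mathlib

/-!
# Prophet secretary with one quantile query on the maximum: the model
-/

set_option autoImplicit false

open MeasureTheory
open scoped ENNReal BigOperators

namespace Pool.Agent.R566.Secretary

/-- An instance: the distributions of `n` independent non-negative random variables
without atoms. -/
structure Instance (n : ℕ) where
  /-- the distributions `D₁, …, Dₙ` -/
  law : Fin n → Measure ℝ
  law_prob : ∀ i, IsProbabilityMeasure (law i)
  law_nonneg : ∀ i, law i (Set.Iio 0) = 0
  law_noAtoms : ∀ i a, law i {a} = 0

attribute [instance] Instance.law_prob

/-- The joint distribution of the values `x₁, …, xₙ`, which are independent. -/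
noncomputable def Instance.joint {n : ℕ} (I : Instance n) : Measure (Fin n → ℝ) := Measure.pi I.law

/-- `OPT`, the expectation of the maximum of the values. -/
noncomputable def Instance.opt {n : ℕ} (I : Instance n) : ℝ≥0∞ :=
  ∫⁻ x, ⨆ i, ENNReal.ofReal (x i) ∂I.joint

/-- `v` is an answer to the quantile query `q` on the distribution of the maximum:
`Pr[x* > v] = q`. -/
def Instance.Answers {n : ℕ} (I : Instance n) (q v : ℝ) : Prop :=
  I.joint {x | ∃ i, v < x i} = ENNReal.ofReal q

/-- A (deterministic) algorithm in the single-query model.  It asks the query `query n`, and then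
decides in terms of `n`, the answer, and the revealed values, whether to accept the current value:
`accept n answer seen current`, where `seen` is the list of the values revealed before
(all of them rejected) and `current` is the value just revealed. -/
structure Algorithm where
  /-- the query -/
  query : ℕ → ℝ
  query_mem : ∀ n, query n ∈ Set.Icc (0 : ℝ) 1
  /-- the decision -/
  accept : (n : ℕ) → (answer : ℝ) → (seen : List ℝ) → (current : ℝ) → Prop

/-- The values revealed before time `t` when `y` is the sequence of values in the order in which
they are revealed. -/
def seen {n : ℕ} (y : Fin n → ℝ) (t : Fin n) : List ℝ := (List.ofFn y).take t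

open Classical in
/-- The value that the algorithm accepts when `y` is the sequence of revealed values (`0` if none
is accepted). -/
noncomputable def Algorithm.value (A : Algorithm) {n : ℕ} (v : ℝ) (y : Fin n → ℝ) : ℝ≥0∞ :=
  ∑ t : Fin n, if A.accept n v (seen y t) (y t) ∧ ∀ s < t, ¬ A.accept n v (seen y s) (y s)
    then ENNReal.ofReal (y t) else 0

/-- `ALG`: the expected accepted value when the answer to the query is `v`; the values are
revealed in a uniformly random order. -/
noncomputable def Algorithm.alg (A : Algorithm) {n : ℕ} (I : Instance n) (v : ℝ) : ℝ≥0∞ :=
  (∑ σ : Equiv.Perm (Fin n), ∫⁻ x, A.value v (fun t => x (σ t)) ∂I.joint) / (n.factorial : ℝ≥0∞)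

/-- The competitive ratio of an algorithm: the infimum of `ALG / OPT` over all `n ≥ 1`,
all instances with `0 < OPT < ∞`, and all answers to the query of the algorithm. -/
noncomputable def Algorithm.ratio (A : Algorithm) : ℝ≥0∞ :=
  ⨅ (n : ℕ) (_ : 1 ≤ n) (I : Instance n) (_ : 0 < I.opt) (_ : I.opt < ∞) (v : ℝ)
    (_ : I.Answers (A.query n) v), A.alg I v / I.opt

end Pool.Agent.R566.Secretary
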