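import Pool.Agent.R566.Secretary.Comb

set_option autoImplicit false

open MeasureTheory
open scoped ENNReal BigOperators

namespace Pool.Agent.R566.Secretary

variable {n : ℕ}

/-- The algorithm: accept every value above the answer `v` to the query `1 - exp (-0.995)`;
during the last `⌈n / 100⌉` steps accept also every value that is larger than all values seen
before. -/
noncomputable def algo : Algorithm where
  query _ := 1 - Real.exp (-(199 / 200))
  query_mem n := by
    refine ⟨?_, ?_⟩
    · have : Real.exp (-(199 / 200)) ≤ 1 := Real.exp_le_one_iff.2 (by norm_num)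
      linarith
    · have := Real.exp_pos (-(199 / 200))
      linarith
  accept n v seen c := v < c ∨ (n - (n + 99) / 100 ≤ seen.length ∧ ∀ a ∈ seen, a < c)

lemma mem_seen (y : Fin n → ℝ) (t : Fin n) (a : ℝ) : a ∈ seen y t ↔ ∃ r < t, y r = a := by
  unfold seen
  rw [List.mem_iff_getElem]
  constructor
  · rintro ⟨i, hi, h⟩
    rw [List.length_take, List.length_ofFn] at hi
    have hi2 : i < n := lt_of_lt_of_le hi (min_le_right _ _)
    have hi3 : i < t.val := lt_of_lt_of_le hi (min_le_left _ _)
    refine ⟨⟨i, hi2⟩, hi3, ?_⟩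
    rw [← h, List.getElem_take, List.getElem_ofFn]
  · rintro ⟨r, hr, h⟩
    refine ⟨r.val, ?_, ?_⟩
    · rw [List.length_take, List.length_ofFn]
      exact lt_min hr r.isLt
    · rw [List.getElem_take, List.getElem_ofFn]
      exact h

lemma length_seen (y : Fin n → ℝ) (t : Fin n) : (seen y t).length = t.val := by
  unfold seen
  rw [List.length_take, List.length_ofFn]
  exact min_eq_left t.isLt.le

lemma accept_iff (v : ℝ) (y : Fin n → ℝ) (t : Fin n) :
    algo.accept n v (seen y t) (y t) ↔ v < y t ∨ (n - (n + 99) / 100 ≤ t.val ∧ recd y t) := by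
  show (v < y t ∨ (n - (n + 99) / 100 ≤ (seen y t).length ∧ ∀ a ∈ seen y t, a < y t)) ↔ _
  rw [length_seen]
  apply or_congr Iff.rfl
  apply and_congr Iff.rfl
  unfold recd
  constructor
  · intro h r hr
    exact h _ ((mem_seen y t _).2 ⟨r, hr, rfl⟩)
  · intro h a ha
    obtain ⟨r, hr, rfl⟩ := (mem_seen y t a).1 ha
    exact h r hr

open Classical in
/-- The value at the target. -/
noncomputable def ft (v : ℝ) (k : ℕ) (y : Fin n → ℝ) (t : Fin n) : ℝ≥0∞ :=
  if tgt v k y t then ENNReal.ofReal (y t) else 0

open Classical in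
lemma pointwise (v : ℝ) (y : Fin n → ℝ) (t : Fin n) :
    ft v (n - (n + 99) / 100) y t ≤
      (if algo.accept n v (seen y t) (y t) ∧ ∀ s < t, ¬ algo.accept n v (seen y s) (y s)
        then ENNReal.ofReal (y t) else 0) +
      ∑ s ∈ Finset.univ.filter (fun s : Fin n => n - (n + 99) / 100 ≤ s.val ∧ s < t),
        (if recd y s then ft v (n - (n + 99) / 100) y t else 0) := by
  by_cases h : tgt v (n - (n + 99) / 100) y t
  · by_cases h2 : ∃ s : Fin n, n - (n + 99) / 100 ≤ s.val ∧ s < t ∧ recd y s
    · obtain ⟨s, hs1, hs2, hs3⟩ := h2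
      refine le_add_left ?_
      have h4 : s ∈ Finset.univ.filter (fun s : Fin n => n - (n + 99) / 100 ≤ s.val ∧ s < t) := by
        rw [Finset.mem_filter]; exact ⟨Finset.mem_univ _, hs1, hs2⟩
      refine le_trans ?_ (Finset.single_le_sum (f := fun s => if recd y s then
        ft v (n - (n + 99) / 100) y t else 0) (fun _ _ => zero_le) h4)
      rw [if_pos hs3]
    · push Not at h2
      refine le_add_right ?_
      unfold ft
      rw [if_pos h, if_pos]
      refine ⟨?_, ?_⟩
      · rw [accept_iff]
        rcases h with ⟨h3, h4⟩ | ⟨h3, h4, h5⟩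
        · exact Or.inl h3
        · exact Or.inr ⟨h3, fun r hr => h5 r (ne_of_lt hr)⟩
      · intro s hs
        rw [accept_iff]
        rintro (h3 | ⟨h3, h4⟩)
        · rcases h with ⟨h5, h6⟩ | ⟨h5, h6, h7⟩
          · exact absurd h3 (not_lt.2 (h6 s hs))
          · exact absurd h3 (not_lt.2 (h6 s))
        · exact h2 s h3 hs h4
  · have : ft v (n - (n + 99) / 100) y t = 0 := by unfold ft; rw [if_neg h]
    rw [this]
    exact zero_le

/-- The factor of the loss. -/
noncomputable def KK (n k : ℕ) : ℝ≥0∞ := ((n - 1 - k : ℕ) : ℝ≥0∞) / ((k + 1 : ℕ) : ℝ≥0∞)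

open Classical in
lemma sum_bound (v : ℝ) (x : Fin n → ℝ) :
    ∑ t, ∑ σ : Equiv.Perm (Fin n), ft v (n - (n + 99) / 100) (fun i => x (σ i)) t ≤
      (∑ σ : Equiv.Perm (Fin n), algo.value v (fun i => x (σ i))) +
      KK n (n - (n + 99) / 100) *
        ∑ t ∈ Finset.univ.filter (fun t : Fin n => n - (n + 99) / 100 < t.val),
          ∑ σ : Equiv.Perm (Fin n), ft v (n - (n + 99) / 100) (fun i => x (σ i)) t := by
  set k := n - (n + 99) / 100 with hk
  have h1 : ∀ t : Fin n, ∑ σ : Equiv.Perm (Fin n), ft v k (fun i => x (σ i)) t ≤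
      (∑ σ : Equiv.Perm (Fin n), (if algo.accept n v (seen (fun i => x (σ i)) t) (x (σ t)) ∧
        ∀ s < t, ¬ algo.accept n v (seen (fun i => x (σ i)) s) (x (σ s))
        then ENNReal.ofReal (x (σ t)) else 0)) +
      (if k < t.val then KK n k * ∑ σ : Equiv.Perm (Fin n), ft v k (fun i => x (σ i)) t else 0) := by
    intro t
    refine (Finset.sum_le_sum fun σ _ => pointwise v (fun i => x (σ i)) t).trans ?_
    rw [Finset.sum_add_distrib]
    refine add_le_add (le_refl _) ?_
    rw [Finset.sum_comm]
    have h2 : ∀ s ∈ Finset.univ.filter (fun s : Fin n => k ≤ s.val ∧ s < t),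
        ∑ σ : Equiv.Perm (Fin n), (if recd (fun i => x (σ i)) s then
          ft v k (fun i => x (σ i)) t else 0) ≤
        (∑ σ : Equiv.Perm (Fin n), ft v k (fun i => x (σ i)) t) / ((k + 1 : ℕ) : ℝ≥0∞) := by
      intro s hs
      rw [Finset.mem_filter] at hs
      have h3 := rec_avg s x (fun σ => ft v k (fun i => x (σ i)) t) (by
        intro σ r hr
        unfold ft
        have h4 := tgt_swap (v := v) (k := k) (y := fun i => x (σ i)) hr hs.2.2
        have h5 := swap_fix hr hs.2.2
        simp only [Equiv.Perm.coe_mul, Function.comp_apply, h5]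
        by_cases h6 : tgt v k (fun i => x (σ i)) t
        · exact (if_pos (h4.2 h6)).trans (if_pos h6).symm
        · exact (if_neg (fun h => h6 (h4.1 h))).trans (if_neg h6).symm)
      rw [ENNReal.le_div_iff_mul_le (Or.inl (by simp)) (Or.inl (ENNReal.natCast_ne_top _)), mul_comm]
      refine le_trans ?_ h3
      apply mul_le_mul_left
      have : k + 1 ≤ s.val + 1 := by have := hs.2.1; omega
      exact_mod_cast this
    refine (Finset.sum_le_sum h2).trans ?_
    rw [Finset.sum_const, nsmul_eq_mul]
    have hcard : (Finset.univ.filter (fun s : Fin n => k ≤ s.val ∧ s < t)).card = t.val - k := by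
      have : (Finset.univ.filter (fun s : Fin n => k ≤ s.val ∧ s < t)).map Fin.valEmbedding =
          Finset.Ico k t.val := by
        ext j
        simp only [Finset.mem_map, Finset.mem_filter, Finset.mem_univ, true_and,
          Fin.valEmbedding_apply, Finset.mem_Ico]
        constructor
        · rintro ⟨a, ⟨h3, h4⟩, rfl⟩
          exact ⟨h3, h4⟩
        · rintro ⟨h3, h4⟩
          exact ⟨⟨j, h4.trans t.isLt⟩, ⟨h3, h4⟩, rfl⟩
      rw [← Finset.card_map Fin.valEmbedding, this, Nat.card_Ico]
    rw [hcard]
    split_ifs with h5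
    · unfold KK
      rw [mul_div_assoc', ENNReal.mul_div_right_comm]
      apply mul_le_mul_left
      apply ENNReal.div_le_div_right
      have : t.val - k ≤ n - 1 - k := by have := t.isLt; omega
      exact_mod_cast this
    · have : t.val - k = 0 := by omega
      rw [this]
      simp
  refine (Finset.sum_le_sum fun t _ => h1 t).trans ?_
  rw [Finset.sum_add_distrib]
  refine add_le_add ?_ ?_
  · rw [Finset.sum_comm]
    apply Finset.sum_le_sum
    intro σ _
    unfold Algorithm.value
    exact le_refl _
  · rw [← Finset.sum_filter, Finset.mul_sum]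

end Pool.Agent.R566.Secretary
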